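import Mathlib

/-!
# Thin intervals in B_h-sets for odd h

Let `h = 2k - 1` be odd, `h ≥ 3`.  For a B_h-set `A` the numbers
`b_1 + ... + b_k - a_1 - ... - a_(k-1)` (with disjoint supports) are pairwise distinct.
We take the elements at the scales `4^j X`, `j < J`, where `J` is about `log (1/ε)`; if all the
intervals `(y, (1+ε) y]` with `X ≤ y ≤ X/ε` contained more than `δ y^(1/h)` elements of `A`, each
scale would give at least a constant times `(δ/ε)^h X` distinct integers in `[-X/4, 0)`, and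
distinct scales give distinct integers.  Hence `J (δ/ε)^h` is bounded.
-/

set_option autoImplicit false

open Finset

namespace Pool.Agent.Results.MP_d7d65f_nt.LocalThinness

/-- B_h-set -/
def IsBh (h : ℕ) (A : Set ℕ) : Prop :=
  ∀ s t : Multiset ℕ, Multiset.card s = h → Multiset.card t = h →
    (∀ x ∈ s, x ∈ A) → (∀ x ∈ t, x ∈ A) → s.sum = t.sum → s = t

open Classical in
noncomputable def F (A : Set ℕ) (u v : ℝ) : Finset ℕ :=
  (Finset.range (⌊v⌋₊ + 1)).filter (fun n => n ∈ A ∧ u < (n:ℝ) ∧ (n:ℝ) ≤ v)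

lemma mem_F {A : Set ℕ} {u v : ℝ} {n : ℕ} :
    n ∈ F A u v ↔ n ∈ A ∧ u < (n:ℝ) ∧ (n:ℝ) ≤ v := by
  classical
  unfold F
  simp only [Finset.mem_filter, Finset.mem_range]
  constructor
  · exact fun h => h.2
  · intro h
    refine ⟨?_, h⟩
    have := Nat.le_floor h.2.2
    omega

lemma ncard_eq (A : Set ℕ) (u v : ℝ) :
    (A ∩ {n : ℕ | u < (n:ℝ) ∧ (n:ℝ) ≤ v}).ncard = (F A u v).card := by
  have : (A ∩ {n : ℕ | u < (n:ℝ) ∧ (n:ℝ) ≤ v}) = ↑(F A u v) := by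
    ext n; simp [mem_F]
  rw [this, Set.ncard_coe_finset]

lemma card_add_le (A : Set ℕ) {u v w : ℝ} (huv : u ≤ v) (hvw : v ≤ w) :
    (F A u v).card + (F A v w).card ≤ (F A u w).card := by
  classical
  rw [← Finset.card_union_of_disjoint]
  · apply Finset.card_le_card
    intro n hn
    rw [Finset.mem_union, mem_F, mem_F] at hn
    rw [mem_F]
    rcases hn with h | h
    · exact ⟨h.1, h.2.1, h.2.2.trans hvw⟩
    · exact ⟨h.1, lt_of_le_of_lt huv h.2.1, h.2.2⟩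
  · rw [Finset.disjoint_left]
    intro n h1 h2
    rw [mem_F] at h1 h2
    linarith [h1.2.2, h2.2.1]

lemma card_mono (A : Set ℕ) {u u' v v' : ℝ} (hu : u' ≤ u) (hv : v ≤ v') :
    (F A u v).card ≤ (F A u' v').card := by
  apply Finset.card_le_card
  intro n hn
  rw [mem_F] at *
  exact ⟨hn.1, lt_of_le_of_lt hu hn.2.1, hn.2.2.trans hv⟩

lemma windows (A : Set ℕ) {ε δ g X Y : ℝ} (hε : 0 < ε) (hδ : 0 ≤ δ) (hg : 0 ≤ g) (hX : 0 < X)
    (H : ∀ y, X ≤ y → y ≤ Y → δ * y ^ g ≤ ((F A y ((1+ε)*y)).card : ℝ))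
    {y₀ : ℝ} (h0 : X ≤ y₀) (I : ℕ) (hI : y₀ * (1+ε)^I ≤ Y) :
    (I : ℝ) * (δ * y₀ ^ g) ≤ ((F A y₀ (y₀ * (1+ε)^I)).card : ℝ) := by
  induction I with
  | zero => simp
  | succ I ih =>
    have h1 : (1:ℝ) ≤ (1+ε)^I := one_le_pow₀ (by linarith)
    have hy0 : 0 < y₀ := lt_of_lt_of_le hX h0
    have hpos : 0 < y₀ * (1+ε)^I := by positivity
    have heq : y₀ * (1+ε)^(I+1) = (1+ε) * (y₀ * (1+ε)^I) := by ring
    have hle : y₀ * (1+ε)^I ≤ y₀ * (1+ε)^(I+1) := by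
      rw [heq]; nlinarith
    have hge : y₀ ≤ y₀ * (1+ε)^I := by nlinarith
    have ih' := ih (hle.trans hI)
    have H' := H (y₀ * (1+ε)^I) (h0.trans hge) (hle.trans hI)
    have hadd := card_add_le A (u := y₀) (v := y₀ * (1+ε)^I) (w := y₀ * (1+ε)^(I+1)) hge hle
    have hadd' : ((F A y₀ (y₀ * (1+ε)^I)).card : ℝ) +
        ((F A (y₀ * (1+ε)^I) (y₀ * (1+ε)^(I+1))).card : ℝ) ≤
        ((F A y₀ (y₀ * (1+ε)^(I+1))).card : ℝ) := by exact_mod_cast hadd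
    rw [heq] at hadd' ⊢
    have hpow : y₀ ^ g ≤ (y₀ * (1+ε)^I) ^ g := Real.rpow_le_rpow hy0.le hge hg
    have h2 : δ * y₀ ^ g ≤ δ * (y₀ * (1+ε)^I) ^ g := mul_le_mul_of_nonneg_left hpow hδ
    push_cast
    nlinarith

/-- the scale interval determines the scale -/
lemma scale_unique {X x : ℝ} (hX : 0 < X) {i j : ℕ}
    (h1 : (4:ℝ)^i * X < x) (h2 : x ≤ (5/2) * ((4:ℝ)^i * X))
    (h3 : (4:ℝ)^j * X < x) (h4 : x ≤ (5/2) * ((4:ℝ)^j * X)) : i = j := by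
  have key : ∀ a b : ℕ, a < b → (4:ℝ) * (4^a * X) ≤ 4^b * X := by
    intro a b hab
    have : (4:ℝ)^(a+1) ≤ 4^b := pow_le_pow_right₀ (by norm_num) hab
    rw [pow_succ] at this
    nlinarith
  rcases lt_trichotomy i j with h | h | h
  · have := key i j h
    have hp : 0 < (4:ℝ)^i * X := by positivity
    linarith
  · exact h
  · have := key j i h
    have hp : 0 < (4:ℝ)^j * X := by positivity
    linarith

lemma sum_bounds_card {S : Finset ℕ} {k : ℕ} (hS : S.card = k) {lo hi : ℝ}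
    (h : ∀ x ∈ S, lo ≤ (x:ℝ) ∧ (x:ℝ) ≤ hi) :
    (k:ℝ) * lo ≤ ∑ x ∈ S, (x:ℝ) ∧ ∑ x ∈ S, (x:ℝ) ≤ (k:ℝ) * hi := by
  constructor
  · have := Finset.card_nsmul_le_sum S (fun x => (x:ℝ)) lo (fun x hx => (h x hx).1)
    rw [hS, nsmul_eq_mul] at this
    exact this
  · have := Finset.sum_le_card_nsmul S (fun x => (x:ℝ)) hi (fun x hx => (h x hx).2)
    rw [hS, nsmul_eq_mul] at this
    exact this

/-- the real number `∑ B - ∑ A'`. -/
noncomputable def sv (q : Finset ℕ × Finset ℕ) : ℝ := ∑ x ∈ q.1, (x:ℝ) - ∑ x ∈ q.2, (x:ℝ)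

lemma val_sum (U : Finset ℕ) : U.val.sum = ∑ b ∈ U, b :=
  (Finset.sum_val U).trans rfl

lemma filt (lo hi : ℝ) (U : Finset ℕ) (hU : ∀ x ∈ U, lo < (x:ℝ) ∧ (x:ℝ) ≤ hi) :
    Multiset.filter (fun x : ℕ => lo < (x:ℝ) ∧ (x:ℝ) ≤ hi) U.val = U.val := by
  rw [Multiset.filter_eq_self]
  intro x hx
  exact hU x hx

lemma filt0 (lo hi : ℝ) (U : Finset ℕ) (hU : ∀ x ∈ U, ¬ (lo < (x:ℝ) ∧ (x:ℝ) ≤ hi)) :
    Multiset.filter (fun x : ℕ => lo < (x:ℝ) ∧ (x:ℝ) ≤ hi) U.val = 0 := by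
  rw [Multiset.filter_eq_nil]
  intro x hx
  exact hU x hx

lemma filt1 (lo hi : ℝ) (a : ℕ) (ha : ¬ (lo < (a:ℝ) ∧ (a:ℝ) ≤ hi)) :
    Multiset.filter (fun x : ℕ => lo < (x:ℝ) ∧ (x:ℝ) ≤ hi) {a} = 0 := by
  rw [Multiset.filter_eq_nil]
  intro x hx
  rw [Multiset.mem_singleton] at hx
  rw [hx]; exact ha

/-- The uniqueness step. -/
lemma uniq {k : ℕ} (hk : 2 ≤ k) {A : Set ℕ} (hA : IsBh (2*k-1) A) {X r₁ r₂ : ℝ} (hX : 0 < X)
    (hr1 : 1 < r₁) (hr12 : r₁ ≤ r₂) (hr2 : r₂ ≤ 5/4) {j j' : ℕ} {S S' T T' : Finset ℕ} {a a' : ℕ}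
    (hS2 : S.card = k) (hS2' : S'.card = k) (hT2 : T.card = k-2) (hT2' : T'.card = k-2)
    (pS : ∀ x ∈ S, x ∈ A ∧ (4:ℝ)^j * X < x ∧ (x:ℝ) ≤ r₁ * ((4:ℝ)^j * X))
    (pS' : ∀ x ∈ S', x ∈ A ∧ (4:ℝ)^j' * X < x ∧ (x:ℝ) ≤ r₁ * ((4:ℝ)^j' * X))
    (pT : ∀ x ∈ T, x ∈ A ∧ r₁ * ((4:ℝ)^j * X) < x ∧ (x:ℝ) ≤ r₂ * ((4:ℝ)^j * X))
    (pT' : ∀ x ∈ T', x ∈ A ∧ r₁ * ((4:ℝ)^j' * X) < x ∧ (x:ℝ) ≤ r₂ * ((4:ℝ)^j' * X))
    (ha : a ∈ A) (ha' : a' ∈ A)
    (pa : (7/4) * ((4:ℝ)^j * X) < a ∧ (a:ℝ) ≤ (5/2) * ((4:ℝ)^j * X))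
    (pa' : (7/4) * ((4:ℝ)^j' * X) < a' ∧ (a':ℝ) ≤ (5/2) * ((4:ℝ)^j' * X))
    (hsum : (∑ b ∈ S, b) + (∑ c ∈ T', c) + a' = (∑ b ∈ S', b) + (∑ c ∈ T, c) + a) :
    j = j' ∧ S = S' ∧ T = T' ∧ a = a' := by
  have hMj : 0 < (4:ℝ)^j * X := by positivity
  have hMj' : 0 < (4:ℝ)^j' * X := by positivity
  have hr1' : r₁ ≤ 5/4 := hr12.trans hr2
  have q1 : r₁ * ((4:ℝ)^j * X) ≤ (5/4) * ((4:ℝ)^j * X) := mul_le_mul_of_nonneg_right hr1' hMj.le
  have q1' : r₁ * ((4:ℝ)^j' * X) ≤ (5/4) * ((4:ℝ)^j' * X) := mul_le_mul_of_nonneg_right hr1' hMj'.le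
  have q2 : r₂ * ((4:ℝ)^j * X) ≤ (5/4) * ((4:ℝ)^j * X) := mul_le_mul_of_nonneg_right hr2 hMj.le
  have q2' : r₂ * ((4:ℝ)^j' * X) ≤ (5/4) * ((4:ℝ)^j' * X) := mul_le_mul_of_nonneg_right hr2 hMj'.le
  have hms : S.val + T'.val + {a'} = S'.val + T.val + {a} := by
    apply hA
    · simp only [Multiset.card_add, Finset.card_val, Multiset.card_singleton, hS2, hT2']
      omega
    · simp only [Multiset.card_add, Finset.card_val, Multiset.card_singleton, hS2', hT2]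
      omega
    · intro x hx
      simp only [Multiset.mem_add, Finset.mem_val, Multiset.mem_singleton] at hx
      rcases hx with (h | h) | h
      · exact (pS x h).1
      · exact (pT' x h).1
      · rw [h]; exact ha'
    · intro x hx
      simp only [Multiset.mem_add, Finset.mem_val, Multiset.mem_singleton] at hx
      rcases hx with (h | h) | h
      · exact (pS' x h).1
      · exact (pT x h).1
      · rw [h]; exact ha
    · simp only [Multiset.sum_add, Multiset.sum_singleton, val_sum]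
      exact hsum
  -- `j = j'`
  have hjj : j = j' := by
    have hSne : S.Nonempty := by
      rw [← Finset.card_pos, hS2]; omega
    obtain ⟨b, hb⟩ := hSne
    have hbm : b ∈ S'.val + T.val + {a} := by
      rw [← hms]
      simp [hb]
    simp only [Multiset.mem_add, Finset.mem_val, Multiset.mem_singleton] at hbm
    have hbS := pS b hb
    rcases hbm with (h | h) | h
    · have := pS' b h
      exact scale_unique hX hbS.2.1 (by linarith [hbS.2.2]) this.2.1 (by linarith [this.2.2])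
    · exfalso
      have := pT b h
      linarith [this.2.1, hbS.2.2]
    · exfalso
      have h3 := pa.1
      rw [← h] at h3
      linarith [hbS.2.2]
  subst hjj
  -- `S = S'`
  have hSS : S = S' := by
    have := congrArg (Multiset.filter (fun x : ℕ => (4:ℝ)^j * X < (x:ℝ) ∧ (x:ℝ) ≤ r₁ * ((4:ℝ)^j * X))) hms
    rw [Multiset.filter_add, Multiset.filter_add, Multiset.filter_add, Multiset.filter_add,
      filt _ _ S (fun x hx => (pS x hx).2), filt _ _ S' (fun x hx => (pS' x hx).2),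
      filt0 _ _ T' (fun x hx h => absurd h.2 (not_le.2 (pT' x hx).2.1)),
      filt0 _ _ T (fun x hx h => absurd h.2 (not_le.2 (pT x hx).2.1)),
      filt1 _ _ a (fun h => by linarith [h.2, pa.1]),
      filt1 _ _ a' (fun h => by linarith [h.2, pa'.1])] at this
    simpa using this
  subst hSS
  have hms2 : T'.val + {a'} = T.val + {a} := by
    rw [add_assoc, add_assoc] at hms
    exact add_left_cancel hms
  have hTT : T' = T := by
    have := congrArg (Multiset.filter (fun x : ℕ => r₁ * ((4:ℝ)^j * X) < (x:ℝ) ∧ (x:ℝ) ≤ r₂ * ((4:ℝ)^j * X))) hms2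
    rw [Multiset.filter_add, Multiset.filter_add,
      filt _ _ T' (fun x hx => (pT' x hx).2), filt _ _ T (fun x hx => (pT x hx).2),
      filt1 _ _ a (fun h => by linarith [h.2, pa.1]),
      filt1 _ _ a' (fun h => by linarith [h.2, pa'.1])] at this
    simpa using this
  subst hTT
  have haa : a' = a := by
    have := add_left_cancel hms2
    simpa using this
  exact ⟨rfl, rfl, rfl, haa.symm⟩

lemma sv_bounds {k : ℕ} (hk : 2 ≤ k) {M r₁ r₂ : ℝ} (hM : 0 < M)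
    (hr₁ : r₁ = 1 + 1/(8*(k:ℝ))) (hr₂ : r₂ = 1 + 1/(4*(k:ℝ))) {S T : Finset ℕ}
    (hS2 : S.card = k) (hT2 : T.card = k-2)
    (pS : ∀ x ∈ S, M < (x:ℝ) ∧ (x:ℝ) ≤ r₁ * M)
    (pT : ∀ x ∈ T, r₁ * M < (x:ℝ) ∧ (x:ℝ) ≤ r₂ * M) :
    (7/4) * M ≤ sv (S, T) ∧ sv (S, T) ≤ (9/4) * M := by
  have hkR : (2:ℝ) ≤ (k:ℝ) := by exact_mod_cast hk
  have hk0 : (0:ℝ) < (k:ℝ) := by linarith
  have h8 : (0:ℝ) < 1/(8*(k:ℝ)) := by positivity
  have h4 : 1/(4*(k:ℝ)) = 2 * (1/(8*(k:ℝ))) := by field_simp; ring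
  have hk8 : (k:ℝ) * (1/(8*(k:ℝ))) = 1/8 := by field_simp
  have h816 : 1/(8*(k:ℝ)) ≤ 1/16 := by
    apply one_div_le_one_div_of_le <;> linarith
  have b1 := sum_bounds_card hS2 (lo := M) (hi := r₁ * M) (fun x hx =>
    ⟨(pS x hx).1.le, (pS x hx).2⟩)
  have b2 := sum_bounds_card hT2 (lo := r₁ * M) (hi := r₂ * M) (fun x hx =>
    ⟨(pT x hx).1.le, (pT x hx).2⟩)
  have hk2 : ((k-2 : ℕ) : ℝ) = (k:ℝ) - 2 := by
    rw [Nat.cast_sub hk]; norm_num
  rw [hk2] at b2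
  simp only [sv]
  have e1 : (k:ℝ) * (r₁ * M) = k * M + (1/8) * M := by
    rw [hr₁]
    have : (k:ℝ) * ((1 + 1/(8*(k:ℝ))) * M) = k * M + (k * (1/(8*(k:ℝ)))) * M := by ring
    rw [this, hk8]
  have e2 : (k:ℝ) * (r₂ * M) = k * M + (1/4) * M := by
    rw [hr₂, h4]
    have : (k:ℝ) * ((1 + 2 * (1/(8*(k:ℝ)))) * M) = k * M + 2 * (k * (1/(8*(k:ℝ)))) * M := by ring
    rw [this, hk8]
    ring
  have e3 : ((k:ℝ) - 2) * (r₁ * M) = (k:ℝ) * (r₁ * M) - 2 * (r₁ * M) := by ring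
  have e4 : ((k:ℝ) - 2) * (r₂ * M) = (k:ℝ) * (r₂ * M) - 2 * (r₂ * M) := by ring
  have e5 : r₁ * M ≤ (1 + 1/16) * M := by
    apply mul_le_mul_of_nonneg_right _ hM.le
    rw [hr₁]; linarith
  have e7 : 1 * M ≤ r₂ * M := by
    apply mul_le_mul_of_nonneg_right _ hM.le
    rw [hr₂, h4]; linarith
  constructor
  · linarith [b1.1, b2.2]
  · linarith [b1.2, b2.1]

lemma core {k : ℕ} (hk : 2 ≤ k) {A : Set ℕ} (hA : IsBh (2*k-1) A) {X r₁ r₂ : ℝ} (hX : 0 < X)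
    (hr₁ : r₁ = 1 + 1/(8*(k:ℝ))) (hr₂ : r₂ = 1 + 1/(4*(k:ℝ)))
    (J : ℕ) (ω : ℕ → ℝ)
    (hω : ∀ j < J, ∀ s : ℝ, (7/4) * (4^j * X) ≤ s → s ≤ (9/4) * (4^j * X) →
      ω j ≤ ((F A s (s + X/4)).card : ℝ)) :
    ∑ j ∈ range J, (((F A (4^j * X) (r₁ * (4^j * X))).card.choose k : ℝ) *
      ((F A (r₁ * (4^j * X)) (r₂ * (4^j * X))).card.choose (k-2) : ℝ)) * ω j ≤ X / 4 := by
  classical
  have hkR : (2:ℝ) ≤ (k:ℝ) := by exact_mod_cast hk
  have hk0 : (0:ℝ) < (k:ℝ) := by linarith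
  have h8 : (0:ℝ) < 1/(8*(k:ℝ)) := by positivity
  have h4 : 1/(4*(k:ℝ)) = 2 * (1/(8*(k:ℝ))) := by field_simp; ring
  have hr12 : r₁ ≤ r₂ := by rw [hr₁, hr₂, h4]; linarith
  have hr1 : 1 < r₁ := by rw [hr₁]; linarith
  have hr2 : r₂ ≤ 5/4 := by
    rw [hr₂, h4]
    have : 1/(8*(k:ℝ)) ≤ 1/8 := by
      apply one_div_le_one_div_of_le <;> linarith
    linarith
  -- index sets
  let B : ℕ → Finset ℕ := fun j => F A (4^j * X) (r₁ * (4^j * X))
  let C : ℕ → Finset ℕ := fun j => F A (r₁ * (4^j * X)) (r₂ * (4^j * X))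
  let base : Finset (Σ _ : ℕ, Finset ℕ × Finset ℕ) :=
    (range J).sigma (fun j => powersetCard k (B j) ×ˢ powersetCard (k-2) (C j))
  let total : Finset (Σ _ : (Σ _ : ℕ, Finset ℕ × Finset ℕ), ℕ) :=
    base.sigma (fun p => F A (sv p.2) (sv p.2 + X/4))
  have hbase : ∀ j S T, (⟨j, (S, T)⟩ : Σ _ : ℕ, Finset ℕ × Finset ℕ) ∈ base →
      j < J ∧ S.card = k ∧ T.card = k-2 ∧
      (∀ x ∈ S, x ∈ A ∧ (4:ℝ)^j * X < x ∧ (x:ℝ) ≤ r₁ * ((4:ℝ)^j * X)) ∧
      (∀ x ∈ T, x ∈ A ∧ r₁ * ((4:ℝ)^j * X) < x ∧ (x:ℝ) ≤ r₂ * ((4:ℝ)^j * X)) := by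
    intro j S T hp
    simp only [base, Finset.mem_sigma, Finset.mem_product, Finset.mem_powersetCard,
      Finset.mem_range] at hp
    obtain ⟨hj, ⟨hB1, hB2⟩, hC1, hC2⟩ := hp
    exact ⟨hj, hB2, hC2, fun x hx => mem_F.1 (hB1 hx), fun x hx => mem_F.1 (hC1 hx)⟩
  -- bounds of `sv`
  have hsv : ∀ p ∈ base, (7/4) * (4^p.1 * X) ≤ sv p.2 ∧ sv p.2 ≤ (9/4) * (4^p.1 * X) := by
    rintro ⟨j, ⟨S, T⟩⟩ hp
    obtain ⟨-, hS, hT, pS, pT⟩ := hbase j S T hp
    exact sv_bounds hk (by positivity) hr₁ hr₂ hS hT (fun x hx => (pS x hx).2)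
      (fun x hx => (pT x hx).2)
  -- the cardinality of `total`
  have hcard : ∑ j ∈ range J, (((B j).card.choose k : ℝ) * ((C j).card.choose (k-2) : ℝ)) * ω j
      ≤ (total.card : ℝ) := by
    have e : (total.card : ℝ) = ∑ p ∈ base, ((F A (sv p.2) (sv p.2 + X/4)).card : ℝ) := by
      rw [Finset.card_sigma]; push_cast; rfl
    rw [e]
    have e2 : ∑ j ∈ range J, (((B j).card.choose k : ℝ) * ((C j).card.choose (k-2) : ℝ)) * ω j
        = ∑ p ∈ base, ω p.1 := by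
      rw [Finset.sum_sigma]
      apply Finset.sum_congr rfl
      intro j _
      simp only [Finset.sum_const, Finset.card_product, Finset.card_powersetCard, nsmul_eq_mul]
      push_cast
      ring
    rw [e2]
    apply Finset.sum_le_sum
    intro p hp
    have hp' := hsv p hp
    have hpJ : p.1 < J := by
      have := (Finset.mem_sigma.1 hp).1
      exact Finset.mem_range.1 this
    exact hω p.1 hpJ _ hp'.1 hp'.2
  refine hcard.trans ?_
  -- the map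
  let f : (Σ _ : (Σ _ : ℕ, Finset ℕ × Finset ℕ), ℕ) → ℤ := fun x =>
    ((∑ b ∈ x.1.2.1, b : ℕ) : ℤ) - ((∑ c ∈ x.1.2.2, c : ℕ) : ℤ) - (x.2 : ℤ)
  have hmaps : ∀ x ∈ total, f x ∈ Finset.Icc (-⌊X/4⌋) (-1) := by
    rintro ⟨p, a⟩ hx
    have hx' := Finset.mem_sigma.1 hx
    have ha := mem_F.1 hx'.2
    have hf : ((f ⟨p, a⟩ : ℤ) : ℝ) = sv p.2 - (a:ℝ) := by
      simp only [f, sv]; push_cast; ring
    simp only at ha
    rw [Finset.mem_Icc]
    constructor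
    · have : -(f ⟨p, a⟩) ≤ ⌊X/4⌋ := by
        rw [Int.le_floor]
        push_cast
        rw [hf]
        linarith [ha.2.2]
      linarith
    · have : ((f ⟨p, a⟩ : ℤ) : ℝ) < 0 := by
        rw [hf]; linarith [ha.2.1]
      have : f ⟨p, a⟩ < 0 := by exact_mod_cast this
      omega
  have hinj : Set.InjOn f (total : Set _) := by
    rintro ⟨⟨j, ⟨S, T⟩⟩, a⟩ hx ⟨⟨j', ⟨S', T'⟩⟩, a'⟩ hx' hff
    have m := Finset.mem_sigma.1 (Finset.mem_coe.1 hx)
    have m' := Finset.mem_sigma.1 (Finset.mem_coe.1 hx')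
    have hs := hsv _ m.1
    have hs' := hsv _ m'.1
    have ma := mem_F.1 m.2
    have ma' := mem_F.1 m'.2
    obtain ⟨-, hS, hT, pS, pT⟩ := hbase j S T m.1
    obtain ⟨-, hS', hT', pS', pT'⟩ := hbase j' S' T' m'.1
    simp only at ma ma' hs hs'
    have hMj : 0 < (4:ℝ)^j * X := by positivity
    have hMj' : 0 < (4:ℝ)^j' * X := by positivity
    have hXj : X ≤ (4:ℝ)^j * X := by
      have : (1:ℝ) ≤ 4^j := one_le_pow₀ (by norm_num)
      nlinarith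
    have hXj' : X ≤ (4:ℝ)^j' * X := by
      have : (1:ℝ) ≤ 4^j' := one_le_pow₀ (by norm_num)
      nlinarith
    have hsum : (∑ b ∈ S, b) + (∑ c ∈ T', c) + a' = (∑ b ∈ S', b) + (∑ c ∈ T, c) + a := by
      simp only [f] at hff
      have : (((∑ b ∈ S, b) + (∑ c ∈ T', c) + a' : ℕ) : ℤ)
          = (((∑ b ∈ S', b) + (∑ c ∈ T, c) + a : ℕ) : ℤ) := by
        rw [Nat.cast_add, Nat.cast_add, Nat.cast_add, Nat.cast_add]
        linarith
      exact Nat.cast_injective this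
    have key := uniq hk hA hX hr1 hr12 hr2 hS hS' hT hT' pS pS' pT pT' ma.1 ma'.1
      ⟨by linarith [ma.2.1, hs.1], by linarith [ma.2.2, hs.2]⟩
      ⟨by linarith [ma'.2.1, hs'.1], by linarith [ma'.2.2, hs'.2]⟩ hsum
    obtain ⟨rfl, rfl, rfl, rfl⟩ := key
    rfl
  have hle : total.card ≤ (Finset.Icc (-⌊X/4⌋) (-1)).card :=
    Finset.card_le_card_of_injOn f hmaps hinj
  rw [Int.card_Icc] at hle
  have hfl : 0 ≤ ⌊X/4⌋ := Int.floor_nonneg.2 (by positivity)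
  have h5 : ((total.card : ℤ)) ≤ ⌊X/4⌋ := by omega
  have h6 : ((total.card : ℤ) : ℝ) ≤ X/4 := Int.le_floor.1 h5
  exact_mod_cast h6

lemma pow_bound {ε : ℝ} (hε : 0 < ε) (n : ℕ) (hn : (n:ℝ) * ε ≤ 1) :
    (1+ε)^n ≤ 1 + 2 * (n * ε) := by
  have key : ∀ m : ℕ, (m:ℝ) * ε ≤ 1 → (1+ε)^m ≤ 1 + m * ε + (m*ε)^2 := by
    intro m
    induction m with
    | zero => intro _; simp
    | succ m ih =>
      intro hm
      push_cast at hm
      have hm' : (m:ℝ) * ε ≤ 1 := by nlinarith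
      have := ih hm'
      rw [pow_succ]
      have h1 : (1+ε)^m * (1+ε) ≤ (1 + m * ε + (m*ε)^2) * (1+ε) :=
        mul_le_mul_of_nonneg_right this (by linarith)
      refine h1.trans ?_
      push_cast
      have h2 : 0 ≤ ε^2 := by positivity
      have h3 : (0:ℝ) ≤ m := by positivity
      have h4 : (m:ℝ) * (m * ε) ≤ m * 1 := mul_le_mul_of_nonneg_left hm' h3
      nlinarith [mul_nonneg h2 h3, mul_le_mul_of_nonneg_left h4 h2]
  have h := key n hn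
  have h0 : 0 ≤ (n:ℝ) * ε := by positivity
  nlinarith

lemma choose_lower {n r : ℕ} (hn : 2 * r ≤ n) {ν : ℝ} (hν0 : 0 ≤ ν) (hν : ν ≤ n) :
    (ν / 2)^r / (r.factorial : ℝ) ≤ (n.choose r : ℝ) := by
  have h := Nat.pow_le_choose (α := ℝ) r n
  refine le_trans ?_ h
  apply div_le_div_of_nonneg_right _ (by positivity)
  apply pow_le_pow_left₀ (by positivity)
  have h1 : n ≤ 2 * (n + 1 - r) := by omega
  have h2 : (n:ℝ) ≤ 2 * ((n + 1 - r : ℕ) : ℝ) := by exact_mod_cast h1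
  linarith

lemma half_floor {x : ℝ} (hx : 1 ≤ x) : x / 2 ≤ ((⌊x⌋₊ : ℕ) : ℝ) := by
  have h1 : x < (⌊x⌋₊ : ℝ) + 1 := Nat.lt_floor_add_one x
  have h2 : 1 ≤ ⌊x⌋₊ := Nat.le_floor (by simpa using hx)
  have h3 : (1:ℝ) ≤ (⌊x⌋₊ : ℝ) := by exact_mod_cast h2
  linarith

/-- lower bound for the number of elements in a window -/
lemma window_count (A : Set ℕ) {ε δ g X Y : ℝ} (hε : 0 < ε) (hδ : 0 ≤ δ) (hg : 0 ≤ g) (hX : 0 < X)
    (H : ∀ y, X ≤ y → y ≤ Y → δ * y ^ g ≤ ((F A y ((1+ε)*y)).card : ℝ))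
    {u v x M : ℝ} (hM : 0 < M) (hMu : M ≤ u) (hu : X ≤ u) (huv : u * (1 + 2 * (ε * x)) ≤ v)
    (hv : v ≤ Y) (hx : 1 ≤ x) (hxε : x * ε ≤ 1) :
    (x / 2) * (δ * M ^ g) ≤ ((F A u v).card : ℝ) := by
  set I := ⌊x⌋₊ with hI
  have hu0 : 0 < u := lt_of_lt_of_le hX hu
  have hIx : (I:ℝ) ≤ x := Nat.floor_le (by linarith)
  have hIε : (I:ℝ) * ε ≤ 1 := le_trans (mul_le_mul_of_nonneg_right hIx hε.le) hxε
  have h1 := pow_bound hε I hIε
  have h2 : u * (1+ε)^I ≤ v := by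
    refine le_trans ?_ huv
    apply mul_le_mul_of_nonneg_left _ hu0.le
    refine h1.trans ?_
    have : (I:ℝ) * ε ≤ x * ε := mul_le_mul_of_nonneg_right hIx hε.le
    linarith
  have h3 := windows A hε hδ hg hX H hu I (h2.trans hv)
  have h4 : ((F A u (u * (1+ε)^I)).card : ℝ) ≤ ((F A u v).card : ℝ) := by
    exact_mod_cast card_mono A le_rfl h2
  refine le_trans ?_ (h3.trans h4)
  have h5 : M ^ g ≤ u ^ g := Real.rpow_le_rpow hM.le hMu hg
  have h6 : δ * M ^ g ≤ δ * u ^ g := mul_le_mul_of_nonneg_left h5 hδ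
  have h7 : 0 ≤ δ * M ^ g := by positivity
  have h8 := half_floor hx
  calc (x / 2) * (δ * M ^ g) ≤ (I:ℝ) * (δ * M^g) := mul_le_mul_of_nonneg_right h8 h7
    _ ≤ (I:ℝ) * (δ * u^g) := mul_le_mul_of_nonneg_left h6 (by positivity)

/-- the number of scales -/
lemma scales {ε : ℝ} (hε : 0 < ε) (hε2 : ε ≤ 1/324) {j : ℕ}
    (hj : j < ⌈Real.log (1/ε)/3⌉₊) : 18 * ε * 4^j ≤ 1 := by
  set L : ℝ := Real.log (1/ε) with hL
  have hLexp : Real.exp L = 1/ε := by rw [hL, Real.exp_log (by positivity)]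
  have hjL : (j:ℝ) < L/3 := Nat.lt_ceil.1 hj
  have h4 : (4:ℝ)^j ≤ Real.exp (L/2) := by
    have h1 : (4:ℝ)^j = Real.exp (j * Real.log 4) := by
      rw [mul_comm, Real.exp_mul, Real.exp_log (by norm_num), Real.rpow_natCast]
    rw [h1]
    apply Real.exp_le_exp.2
    have hlog4 : Real.log 4 ≤ 3/2 := by
      have : Real.log 4 = 2 * Real.log 2 := by
        rw [show (4:ℝ) = 2^2 by norm_num, Real.log_pow]; norm_num
      rw [this]
      linarith [Real.log_two_lt_d9]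
    have hlog0 : 0 ≤ Real.log 4 := Real.log_nonneg (by norm_num)
    have hj0 : (0:ℝ) ≤ j := by positivity
    calc (j:ℝ) * Real.log 4 ≤ j * (3/2) := mul_le_mul_of_nonneg_left hlog4 hj0
      _ ≤ L/2 := by linarith
  have h5 : Real.exp (L/2) ^ 2 = 1/ε := by
    rw [← hLexp, ← Real.exp_nat_mul]; congr 1; push_cast; ring
  have h6 : 0 < Real.exp (L/2) := Real.exp_pos _
  have h7 : (18 * ε * Real.exp (L/2))^2 ≤ 1 := by
    have : (18 * ε * Real.exp (L/2))^2 = 324 * ε^2 * (Real.exp (L/2))^2 := by ring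
    rw [this, h5]
    have : 324 * ε^2 * (1/ε) = 324 * ε := by field_simp
    rw [this]; linarith
  have h8 : 18 * ε * Real.exp (L/2) ≤ 1 := by
    have h9 : 0 ≤ 18 * ε * Real.exp (L/2) := by positivity
    nlinarith
  calc 18 * ε * 4^j ≤ 18 * ε * Real.exp (L/2) := mul_le_mul_of_nonneg_left h4 (by positivity)
    _ ≤ 1 := h8

/-- algebra of one scale -/
lemma term_eq {k h : ℕ} (hk : 2 ≤ k) (hh : h = 2*k-1) {g κ ε X M : ℝ} (hgh : g * (h:ℝ) = 1)
    (hM : 0 < M) (hε : 0 < ε) :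
    ((κ * M^g / 2)^k / (k.factorial:ℝ)) * ((κ * M^g / 2)^(k-2) / ((k-2).factorial:ℝ)) *
      (X / (36 * ε * M) * (64 * k * ε * κ * M^g))
    = (64 * k / (2^(2*k-2) * 36 * (k.factorial * (k-2).factorial))) * κ^h * X := by
  have hMg : (M^g)^h = M := by
    rw [← Real.rpow_natCast, ← Real.rpow_mul hM.le, hgh, Real.rpow_one]
  have e1 : k + (k-2) + 1 = h := by omega
  have e2 : k + (k-2) = 2*k-2 := by omega
  have hf1 : (k.factorial:ℝ) ≠ 0 := by positivity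
  have hf2 : ((k-2).factorial:ℝ) ≠ 0 := by positivity
  have hM' : M ≠ 0 := hM.ne'
  have hε' : ε ≠ 0 := hε.ne'
  set m : ℝ := M^g with hm
  have : ((κ * m / 2)^k / (k.factorial:ℝ)) * ((κ * m / 2)^(k-2) / ((k-2).factorial:ℝ)) *
      (X / (36 * ε * M) * (64 * k * ε * κ * m))
      = ((κ * m / 2)^(k + (k-2)) * (κ * m)) * (64 * k * X / (36 * M * (k.factorial * (k-2).factorial))) := by
    rw [pow_add]; field_simp
  rw [this, e2]
  have e3 : (κ * m / 2)^(2*k-2) * (κ * m) = κ^h * M / 2^(2*k-2) := by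
    rw [div_pow, ← hMg]
    have : (κ * m)^(2*k-2) / 2^(2*k-2) * (κ * m) = ((κ*m)^(2*k-2) * (κ*m)) / 2^(2*k-2) := by ring
    rw [this, ← pow_succ, show 2*k-2+1 = h by omega, mul_pow]
  rw [e3]
  field_simp

/-- the contribution of all scales is too large -/
lemma all_scales {k h : ℕ} (hk : 2 ≤ k) (hh : h = 2*k-1) {A : Set ℕ} (hA : IsBh h A)
    {g κ ε X : ℝ} (hg0 : 0 < g) (hgh : g * (h:ℝ) = 1) (hκ0 : 0 < κ) (hε : 0 < ε)
    (hε2 : ε ≤ 1/(324*k)) (hX1 : 1 ≤ X) (hXg : 2*k/κ ≤ X^g)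
    (H : ∀ y, X ≤ y → y ≤ X/ε → (64 * k * ε * κ) * y ^ g ≤ ((F A y ((1+ε)*y)).card : ℝ))
    (J : ℕ) (hJ : ∀ j < J, 18 * ε * 4^j ≤ 1) :
    (J:ℝ) * ((64 * k / (2^(2*k-2) * 36 * (k.factorial * (k-2).factorial))) * κ^h * X) ≤ X/4 := by
  have hkR : (2:ℝ) ≤ (k:ℝ) := by exact_mod_cast hk
  have hk0 : (0:ℝ) < (k:ℝ) := by linarith
  have hXpos : 0 < X := by linarith
  set δ : ℝ := 64 * k * ε * κ with hδ
  have hδ0 : 0 < δ := by positivity
  set r₁ : ℝ := 1 + 1/(8*(k:ℝ)) with hr₁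
  set r₂ : ℝ := 1 + 1/(4*(k:ℝ)) with hr₂
  have h8 : (0:ℝ) < 1/(8*(k:ℝ)) := by positivity
  have h4' : 1/(4*(k:ℝ)) = 2 * (1/(8*(k:ℝ))) := by field_simp; ring
  have h816 : 1/(8*(k:ℝ)) ≤ 1/16 := by
    apply one_div_le_one_div_of_le <;> linarith
  -- facts on a scale
  have hMfacts : ∀ j < J, X ≤ 4^j * X ∧ (5/2) * (4^j * X) ≤ X/ε ∧ 18 * ε * (4^j * X) ≤ X := by
    intro j hj
    have h1 := hJ j hj
    have h2 : (1:ℝ) ≤ 4^j := one_le_pow₀ (by norm_num)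
    refine ⟨by nlinarith, ?_, by nlinarith⟩
    rw [le_div_iff₀ hε]
    have : 0 < ε * 4^j * X := by positivity
    nlinarith
  have hx : 1 ≤ 1/(32*k*ε) := by
    rw [le_div_iff₀ (by positivity)]
    have : ε * (324 * k) ≤ 1 := by
      rw [le_div_iff₀ (by positivity)] at hε2; exact hε2
    nlinarith [mul_pos hε hk0]
  have hxε : 1/(32*k*ε) * ε ≤ 1 := by
    have : 1/(32*k*ε) * ε = 1/(32*(k:ℝ)) := by field_simp
    rw [this, div_le_one (by positivity)]; linarith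
  have hεx : ε * (1/(32*k*ε)) = (1/(8*(k:ℝ)))/4 := by field_simp; ring
  have hr1 : r₁ ≤ 5/4 := by rw [hr₁]; linarith
  have hr2 : r₂ ≤ 5/4 := by rw [hr₂, h4']; linarith
  have hr10 : 0 < r₁ := by rw [hr₁]; linarith
  -- the base counts
  have hcount1 : ∀ j < J, κ * (4^j*X)^g ≤ ((F A (4^j * X) (r₁ * (4^j * X))).card : ℝ) := by
    intro j hj
    obtain ⟨f1, f2, f3⟩ := hMfacts j hj
    have hM : 0 < 4^j * X := by positivity
    have := window_count A hε hδ0.le hg0.le hXpos H (u := 4^j*X) (v := r₁ * (4^j*X))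
        (x := 1/(32*k*ε)) hM le_rfl f1 ?_ ?_ hx hxε
    · refine le_trans (le_of_eq ?_) this
      rw [hδ]; field_simp; ring
    · rw [hεx, mul_comm]
      apply mul_le_mul_of_nonneg_right _ hM.le
      rw [hr₁]; linarith
    · refine le_trans ?_ f2
      apply mul_le_mul_of_nonneg_right _ hM.le
      linarith
  have hcount2 : ∀ j < J, κ * (4^j*X)^g ≤ ((F A (r₁ * (4^j * X)) (r₂ * (4^j * X))).card : ℝ) := by
    intro j hj
    obtain ⟨f1, f2, f3⟩ := hMfacts j hj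
    have hM : 0 < 4^j * X := by positivity
    have hM1 : 4^j * X ≤ r₁ * (4^j * X) := by
      have : 1 * (4^j * X) ≤ r₁ * (4^j * X) := by
        apply mul_le_mul_of_nonneg_right _ hM.le
        rw [hr₁]; linarith
      linarith
    have := window_count A hε hδ0.le hg0.le hXpos H (u := r₁ * (4^j*X)) (v := r₂ * (4^j*X))
        (x := 1/(32*k*ε)) hM hM1 (f1.trans hM1) ?_ ?_ hx hxε
    · refine le_trans (le_of_eq ?_) this
      rw [hδ]; field_simp; ring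
    · rw [hεx]
      have : r₁ * (4^j*X) * (1 + 2 * (1/(8*(k:ℝ))/4)) = (r₁ * (1 + 2 * (1/(8*(k:ℝ))/4))) * (4^j*X) := by ring
      rw [this]
      apply mul_le_mul_of_nonneg_right _ hM.le
      rw [hr₁, hr₂, h4']
      nlinarith
    · refine le_trans ?_ f2
      apply mul_le_mul_of_nonneg_right _ hM.le
      linarith
  -- the last element
  have hω : ∀ j < J, ∀ s : ℝ, (7/4) * (4^j * X) ≤ s → s ≤ (9/4) * (4^j * X) →
      X / (36 * ε * (4^j*X)) * (δ * (4^j*X)^g) ≤ ((F A s (s + X/4)).card : ℝ) := by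
    intro j hj s hs1 hs2
    obtain ⟨f1, f2, f3⟩ := hMfacts j hj
    have hM : 0 < 4^j * X := by positivity
    have hx' : 1 ≤ X / (18 * ε * (4^j*X)) := by
      rw [le_div_iff₀ (by positivity)]; linarith
    have := window_count A hε hδ0.le hg0.le hXpos H (u := s) (v := s + X/4)
        (x := X / (18 * ε * (4^j*X))) hM (by linarith) (by linarith) ?_ ?_ hx' ?_
    · refine le_trans (le_of_eq ?_) this
      congr 1
      field_simp; ring
    · have e : ε * (X / (18 * ε * (4^j*X))) = X / (18 * (4^j*X)) := by field_simp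
      rw [e]
      have e2 : s * (1 + 2 * (X / (18 * (4^j*X)))) = s + s * (X / (9 * (4^j*X))) := by
        field_simp; ring
      rw [e2]
      have e3 : s * (X / (9 * (4^j*X))) ≤ (9/4) * (4^j * X) * (X / (9 * (4^j*X))) :=
        mul_le_mul_of_nonneg_right hs2 (by positivity)
      have e4 : (9/4) * (4^j * X) * (X / (9 * (4^j*X))) = X/4 := by field_simp
      linarith
    · refine le_trans ?_ f2
      linarith
    · have e : X / (18 * ε * (4^j*X)) * ε = X / (18 * (4^j*X)) := by field_simp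
      rw [e, div_le_one (by positivity)]
      linarith
  rw [hh] at hA
  have hcore := core hk hA hXpos hr₁ hr₂ J
    (fun j => X / (36 * ε * (4^j*X)) * (δ * (4^j*X)^g)) hω
  refine le_trans ?_ hcore
  have hconst : (J:ℝ) * ((64 * k / (2^(2*k-2) * 36 * (k.factorial * (k-2).factorial))) * κ^h * X)
      = ∑ j ∈ range J, ((64 * k / (2^(2*k-2) * 36 * (k.factorial * (k-2).factorial))) * κ^h * X) := by
    rw [Finset.sum_const, Finset.card_range, nsmul_eq_mul]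
  rw [hconst]
  apply Finset.sum_le_sum
  intro j hj
  have hj' : j < J := Finset.mem_range.1 hj
  obtain ⟨f1, f2, f3⟩ := hMfacts j hj'
  have hM : 0 < 4^j * X := by positivity
  rw [← term_eq (X := X) hk hh hgh hM hε]
  have hν : 2 * (k:ℝ) ≤ κ * (4^j*X)^g := by
    have h1 : X^g ≤ (4^j*X)^g := Real.rpow_le_rpow hXpos.le f1 hg0.le
    have h2 : 2*k/κ ≤ (4^j*X)^g := hXg.trans h1
    rw [div_le_iff₀ hκ0] at h2
    linarith
  have hν0 : 0 ≤ κ * (4^j*X)^g := by linarith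
  have c1 := hcount1 j hj'
  have c2 := hcount2 j hj'
  have n1 : 2 * k ≤ (F A (4^j * X) (r₁ * (4^j * X))).card := by
    have : ((2 * k : ℕ) : ℝ) ≤ ((F A (4^j * X) (r₁ * (4^j * X))).card : ℝ) := by
      push_cast; linarith
    exact_mod_cast this
  have n2 : 2 * (k-2) ≤ (F A (r₁ * (4^j * X)) (r₂ * (4^j * X))).card := by
    have : ((2 * k : ℕ) : ℝ) ≤ ((F A (r₁ * (4^j * X)) (r₂ * (4^j * X))).card : ℝ) := by
      push_cast; linarith
    have : 2 * k ≤ (F A (r₁ * (4^j * X)) (r₂ * (4^j * X))).card := by exact_mod_cast this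
    omega
  have b1 := choose_lower n1 hν0 c1
  have b2 := choose_lower n2 hν0 c2
  have hpos1 : 0 ≤ (κ * (4^j*X)^g / 2)^k / (k.factorial:ℝ) := by positivity
  have hpos2 : 0 ≤ (κ * (4^j*X)^g / 2)^(k-2) / ((k-2).factorial:ℝ) := by positivity
  have hω0 : 0 ≤ X / (36 * ε * (4^j*X)) * (δ * (4^j*X)^g) := by positivity
  exact mul_le_mul_of_nonneg_right (mul_le_mul b1 b2 hpos2 (by positivity)) hω0

lemma small_case (k : ℕ) (hk : 2 ≤ k) :
    ∃ C : ℝ, 0 < C ∧ ∀ ε : ℝ, 0 < ε → ε ≤ 1/(324*k) →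
      ∃ X₀ : ℝ, 0 < X₀ ∧ ∀ A : Set ℕ, IsBh (2*k-1) A → ∀ X : ℝ, X₀ ≤ X →
        ∃ y : ℝ, X ≤ y ∧ y ≤ X / ε ∧
          ((F A y ((1+ε)*y)).card : ℝ)
            ≤ C * ε * (Real.log (1 / ε)) ^ (-(1 / ((2*k-1 : ℕ) : ℝ))) * y ^ (1 / ((2*k-1 : ℕ) : ℝ)) := by
  have hkR : (2:ℝ) ≤ (k:ℝ) := by exact_mod_cast hk
  have hk0 : (0:ℝ) < (k:ℝ) := by linarith
  obtain ⟨h, hh⟩ : ∃ h, h = 2*k-1 := ⟨_, rfl⟩
  rw [← hh]
  have hhpos : 0 < h := by omega
  have hhR : (0:ℝ) < (h:ℝ) := by exact_mod_cast hhpos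
  set g : ℝ := 1/(h:ℝ) with hg
  have hg0 : 0 < g := by positivity
  have hgh : g * (h:ℝ) = 1 := by rw [hg]; field_simp
  -- the constant
  set c : ℝ := 64 * k / (2^(2*k-2) * 36 * (k.factorial * (k-2).factorial)) with hc
  have hc0 : 0 < c := by positivity
  set K : ℝ := 1/c + 1 with hK
  have hK1 : 1 ≤ K := by
    rw [hK]; have : 0 < 1/c := by positivity
    linarith
  have hcK : 1 < c * K ^ h := by
    have h1 : K ≤ K^h := by
      calc K = K^1 := (pow_one K).symm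
        _ ≤ K^h := pow_le_pow_right₀ hK1 hhpos
    have h2 : c * K = 1 + c := by rw [hK]; field_simp
    have h3 : c * K ≤ c * K^h := mul_le_mul_of_nonneg_left h1 hc0.le
    linarith
  refine ⟨64 * k * K, by positivity, ?_⟩
  intro ε hε hε2
  have hε3 : ε ≤ 1/324 := by
    refine hε2.trans ?_
    apply one_div_le_one_div_of_le (by norm_num); linarith
  set L : ℝ := Real.log (1/ε) with hL
  have hL0 : 0 < L := by
    rw [hL]; apply Real.log_pos
    rw [lt_div_iff₀ hε]; linarith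
  -- κ
  set κ : ℝ := K * L ^ (-g) with hκ
  have hLg : 0 < L ^ (-g) := Real.rpow_pos_of_pos hL0 _
  have hκ0 : 0 < κ := by positivity
  have hκh : κ ^ h = K^h / L := by
    rw [hκ, mul_pow, ← Real.rpow_natCast (L ^ (-g)) h, ← Real.rpow_mul hL0.le]
    have : -g * (h:ℝ) = -1 := by linarith
    rw [this, Real.rpow_neg_one]
    rfl
  refine ⟨max 1 ((2*k/κ)^h), lt_of_lt_of_le one_pos (le_max_left _ _), ?_⟩
  intro A hA X hX0
  have hX1 : 1 ≤ X := le_trans (le_max_left _ _) hX0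
  have hXpos : 0 < X := by linarith
  have hXg : 2*k/κ ≤ X ^ g := by
    have h1 : (2*k/κ)^h ≤ X := le_trans (le_max_right _ _) hX0
    have h2 : 0 ≤ 2*k/κ := by positivity
    calc 2*k/κ = ((2*k/κ)^h)^g := by
          rw [← Real.rpow_natCast (2*k/κ) h, ← Real.rpow_mul h2, mul_comm (h:ℝ) g, hgh, Real.rpow_one]
      _ ≤ X^g := Real.rpow_le_rpow (by positivity) h1 hg0.le
  by_contra hcon
  push Not at hcon
  have H : ∀ y, X ≤ y → y ≤ X/ε → (64 * k * ε * κ) * y ^ g ≤ ((F A y ((1+ε)*y)).card : ℝ) := by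
    intro y h1 h2
    have := hcon y h1 h2
    refine le_trans (le_of_eq ?_) this.le
    rw [hκ]; ring
  have hall := all_scales hk hh hA hg0 hgh hκ0 hε hε2 hX1 hXg H ⌈L/3⌉₊
    (fun j hj => scales hε hε3 hj)
  rw [← hc, hκh] at hall
  have hJL : L/3 ≤ ⌈L/3⌉₊ := Nat.le_ceil _
  have h5 : 0 ≤ c * (K^h / L) * X := by positivity
  have h6 : L/3 * (c * (K^h / L) * X) ≤ X/4 := (mul_le_mul_of_nonneg_right hJL h5).trans hall
  have h7 : L/3 * (c * (K^h / L) * X) = (c * K^h) * (X/3) := by field_simp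
  rw [h7] at h6
  have h8 : X/3 < (c * K^h) * (X/3) := by
    have : 0 < X/3 := by positivity
    nlinarith
  linarith

/-- trivial bound for the counting function of a B_h-set -/
lemma trivial_bound {h : ℕ} (hh : 1 ≤ h) {A : Set ℕ} (hA : IsBh h A) {N : ℝ} (hN : 1 ≤ N) :
    ((F A 0 N).card : ℝ) ≤ (4 * h * h.factorial) * N ^ (1/(h:ℝ)) := by
  have hhR : (1:ℝ) ≤ (h:ℝ) := by exact_mod_cast hh
  have hN0 : 0 < N := by linarith
  set g : ℝ := 1/(h:ℝ) with hg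
  have hg0 : 0 < g := by positivity
  have hg1 : g ≤ 1 := by rw [hg, div_le_one (by linarith)]; exact hhR
  have hgh : g * (h:ℝ) = 1 := by rw [hg]; field_simp
  have hNg : 1 ≤ N^g := Real.one_le_rpow hN hg0.le
  have hfac : (1:ℝ) ≤ (h.factorial:ℝ) := by exact_mod_cast Nat.one_le_iff_ne_zero.2 (Nat.factorial_ne_zero h)
  by_cases hcase : (F A 0 N).card < 2 * h
  · have h1 : ((F A 0 N).card : ℝ) ≤ 2 * h := by exact_mod_cast hcase.le
    have h2 : (2:ℝ) * h ≤ (4 * h * h.factorial) * 1 := by nlinarith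
    have h3 : (4 * (h:ℝ) * h.factorial) * 1 ≤ (4 * h * h.factorial) * N^g :=
      mul_le_mul_of_nonneg_left hNg (by positivity)
    linarith
  · push Not at hcase
    -- the map
    have hmaps : ∀ S ∈ powersetCard h (F A 0 N), (∑ x ∈ S, x) ∈ range (⌊(h:ℝ) * N⌋₊ + 1) := by
      intro S hS
      rw [mem_powersetCard] at hS
      rw [mem_range]
      have h1 := (sum_bounds_card hS.2 (lo := 0) (hi := N) (fun x hx => by
        have := mem_F.1 (hS.1 hx)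
        exact ⟨this.2.1.le, this.2.2⟩)).2
      have h2 : ((∑ x ∈ S, x : ℕ) : ℝ) ≤ (h:ℝ) * N := by push_cast; exact h1
      have := Nat.le_floor h2
      omega
    have hinj : Set.InjOn (fun S : Finset ℕ => ∑ x ∈ S, x) (powersetCard h (F A 0 N) : Set (Finset ℕ)) := by
      intro S hS T hT hST
      rw [Finset.mem_coe, mem_powersetCard] at hS hT
      have := hA S.val T.val (by rw [Finset.card_val]; exact hS.2) (by rw [Finset.card_val]; exact hT.2)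
        (fun x hx => (mem_F.1 (hS.1 hx)).1) (fun x hx => (mem_F.1 (hT.1 hx)).1)
        (by rw [val_sum, val_sum]; exact hST)
      exact Finset.val_injective this
    have hle := Finset.card_le_card_of_injOn _ hmaps hinj
    rw [card_powersetCard, card_range] at hle
    have hle' : ((F A 0 N).card.choose h : ℝ) ≤ 2 * h * N := by
      have h1 : ((F A 0 N).card.choose h : ℝ) ≤ (⌊(h:ℝ) * N⌋₊ : ℝ) + 1 := by exact_mod_cast hle
      have h2 : (⌊(h:ℝ) * N⌋₊ : ℝ) ≤ h * N := Nat.floor_le (by positivity)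
      have h3 : (1:ℝ) ≤ h * N := by nlinarith
      linarith
    have hlow := choose_lower (n := (F A 0 N).card) (r := h) hcase (ν := ((F A 0 N).card : ℝ))
      (by positivity) le_rfl
    have h3 : (((F A 0 N).card : ℝ)/2)^h ≤ (2 * h * h.factorial) * N := by
      have := hlow.trans hle'
      rw [div_le_iff₀ (by positivity)] at this
      linarith
    have hD1 : (1:ℝ) ≤ 2 * h * h.factorial := by nlinarith
    have h4 : ((F A 0 N).card : ℝ)/2 ≤ (2 * h * h.factorial) * N^g := by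
      calc ((F A 0 N).card : ℝ)/2 = ((((F A 0 N).card : ℝ)/2)^h)^g := by
            rw [← Real.rpow_natCast _ h, ← Real.rpow_mul (by positivity), mul_comm (h:ℝ) g, hgh,
              Real.rpow_one]
        _ ≤ ((2 * h * h.factorial) * N)^g := Real.rpow_le_rpow (by positivity) h3 hg0.le
        _ = (2 * h * h.factorial)^g * N^g := Real.mul_rpow (by positivity) hN0.le
        _ ≤ (2 * h * h.factorial) * N^g := by
            apply mul_le_mul_of_nonneg_right _ (by positivity)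
            calc ((2:ℝ) * h * h.factorial)^g ≤ (2 * h * h.factorial)^(1:ℝ) :=
                  Real.rpow_le_rpow_of_exponent_le hD1 hg1
              _ = _ := Real.rpow_one _
    linarith

/-- The full range of `ε`. -/
lemma full_case (k : ℕ) (hk : 2 ≤ k) :
    ∃ C : ℝ, 0 < C ∧ ∀ ε : ℝ, 0 < ε → ε ≤ 1/2 →
      ∃ X₀ : ℝ, 0 < X₀ ∧ ∀ A : Set ℕ, IsBh (2*k-1) A → ∀ X : ℝ, X₀ ≤ X →
        ∃ y : ℝ, X ≤ y ∧ y ≤ X / ε ∧
          ((F A y ((1+ε)*y)).card : ℝ)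
            ≤ C * ε * (Real.log (1 / ε)) ^ (-(1 / ((2*k-1 : ℕ) : ℝ))) * y ^ (1 / ((2*k-1 : ℕ) : ℝ)) := by
  have hkR : (2:ℝ) ≤ (k:ℝ) := by exact_mod_cast hk
  have hk0 : (0:ℝ) < (k:ℝ) := by linarith
  obtain ⟨C₁, hC₁, hsmall⟩ := small_case k hk
  obtain ⟨h, hh⟩ : ∃ h, h = 2*k-1 := ⟨_, rfl⟩
  rw [← hh] at hsmall ⊢
  have hhpos : 1 ≤ h := by omega
  have hhR : (1:ℝ) ≤ (h:ℝ) := by exact_mod_cast hhpos
  set g : ℝ := 1/(h:ℝ) with hg
  have hg0 : 0 < g := by positivity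
  have hg1 : g ≤ 1 := by rw [hg, div_le_one (by linarith)]; exact hhR
  set D : ℝ := 4 * h * h.factorial with hD
  have hD0 : 0 < D := by positivity
  set C₂ : ℝ := 2 * D * (324*k) * (324*k) with hC₂
  have hC₂0 : 0 < C₂ := by positivity
  refine ⟨C₁ + C₂, by positivity, ?_⟩
  intro ε hε hε2
  have hL0 : 0 < Real.log (1/ε) := by
    apply Real.log_pos
    rw [lt_div_iff₀ hε]; linarith
  have hLg : 0 < Real.log (1/ε) ^ (-g) := Real.rpow_pos_of_pos hL0 _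
  by_cases hs : ε ≤ 1/(324*k)
  · obtain ⟨X₀, hX₀, hmain⟩ := hsmall ε hε hs
    refine ⟨X₀, hX₀, ?_⟩
    intro A hA X hX
    obtain ⟨y, hy1, hy2, hy3⟩ := hmain A hA X hX
    refine ⟨y, hy1, hy2, hy3.trans ?_⟩
    have hy0 : 0 < y := by linarith
    have : 0 ≤ ε * Real.log (1/ε) ^ (-g) * y^g := by positivity
    nlinarith
  · push Not at hs
    refine ⟨1, one_pos, ?_⟩
    intro A hA X hX
    have hX0 : 0 < X := by linarith
    refine ⟨X, le_rfl, ?_, ?_⟩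
    · rw [le_div_iff₀ hε]; nlinarith
    · have h1 : ((F A X ((1+ε)*X)).card : ℝ) ≤ ((F A 0 (2*X)).card : ℝ) := by
        have : (F A X ((1+ε)*X)).card ≤ (F A 0 (2*X)).card := by
          apply card_mono A hX0.le
          nlinarith
        exact_mod_cast this
      have h2 := trivial_bound hhpos hA (N := 2*X) (by linarith)
      rw [← hg, ← hD] at h2
      have h3 : (2*X)^g ≤ 2 * X^g := by
        rw [Real.mul_rpow (by norm_num) hX0.le]
        apply mul_le_mul_of_nonneg_right _ (by positivity)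
        calc (2:ℝ)^g ≤ 2^(1:ℝ) := Real.rpow_le_rpow_of_exponent_le (by norm_num) hg1
          _ = 2 := Real.rpow_one _
      have h4 : D * (2*X)^g ≤ D * (2 * X^g) := mul_le_mul_of_nonneg_left h3 hD0.le
      -- lower bound for the logarithmic factor
      have hT1 : (1:ℝ) ≤ 324 * k := by linarith
      have hlog : Real.log (1/ε) ≤ 324 * k := by
        have e1 : 1/ε ≤ 324*k := by
          rw [div_le_iff₀ hε]
          rw [div_lt_iff₀ (by positivity)] at hs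
          linarith
        have e2 : Real.log (1/ε) ≤ 1/ε - 1 := Real.log_le_sub_one_of_pos (by positivity)
        linarith
      have h5 : 1/(324*(k:ℝ)) ≤ Real.log (1/ε) ^ (-g) := by
        rw [Real.rpow_neg hL0.le, one_div]
        apply inv_anti₀ (by positivity)
        calc Real.log (1/ε) ^ g ≤ (324*k)^g := Real.rpow_le_rpow hL0.le hlog hg0.le
          _ ≤ (324*(k:ℝ))^(1:ℝ) := Real.rpow_le_rpow_of_exponent_le hT1 hg1
          _ = 324 * k := Real.rpow_one _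
      have h6 : 1/(324*(k:ℝ)) * (1/(324*(k:ℝ))) ≤ ε * Real.log (1/ε) ^ (-g) :=
        mul_le_mul hs.le h5 (by positivity) hε.le
      have h7 : C₂ * (1/(324*(k:ℝ)) * (1/(324*(k:ℝ)))) = 2 * D := by
        rw [hC₂]; field_simp
      have h8 : 2 * D ≤ C₂ * (ε * Real.log (1/ε) ^ (-g)) := by
        rw [← h7]; exact mul_le_mul_of_nonneg_left h6 hC₂0.le
      have hXg : 0 < X^g := Real.rpow_pos_of_pos hX0 _
      have h9 : 2 * D * X^g ≤ C₂ * (ε * Real.log (1/ε) ^ (-g)) * X^g :=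
        mul_le_mul_of_nonneg_right h8 hXg.le
      have h10 : 0 ≤ C₁ * (ε * Real.log (1/ε) ^ (-g)) * X^g := by positivity
      calc ((F A X ((1+ε)*X)).card : ℝ) ≤ D * (2*X)^g := h1.trans h2
        _ ≤ 2 * D * X^g := by linarith
        _ ≤ (C₁ + C₂) * ε * Real.log (1/ε) ^ (-g) * X^g := by nlinarith

/-- **Thin intervals in B_h-sets, `h` odd.** For every odd `h ≥ 3` there is a constant `C` such
that for all `0 < ε ≤ 1/2`, every B_h-set `A` of natural numbers and every sufficiently large `X`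
(in terms of `h` and `ε` only) there is `y` in `[X, X/ε]` such that `(y, (1+ε) y]` contains at most
`C * ε * (log (1/ε))^(-1/h) * y^(1/h)` elements of `A`. -/
theorem result (h : ℕ) (hodd : Odd h) (h3 : 3 ≤ h) :
    ∃ C : ℝ, 0 < C ∧ ∀ ε : ℝ, 0 < ε → ε ≤ 1 / 2 → ∃ X₀ : ℝ, 0 < X₀ ∧
      ∀ A : Set ℕ,
        (∀ s t : Multiset ℕ, Multiset.card s = h → Multiset.card t = h →
          (∀ x ∈ s, x ∈ A) → (∀ x ∈ t, x ∈ A) → s.sum = t.sum → s = t) →
        ∀ X : ℝ, X₀ ≤ X → ∃ y : ℝ, X ≤ y ∧ y ≤ X / ε ∧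
          ((A ∩ {n : ℕ | y < (n : ℝ) ∧ (n : ℝ) ≤ (1 + ε) * y}).ncard : ℝ)
            ≤ C * ε * Real.log (1 / ε) ^ (-(1 / (h : ℝ))) * y ^ (1 / (h : ℝ)) := by
  obtain ⟨m, hm⟩ := hodd
  have hk : 2 ≤ m + 1 := by omega
  have hh : 2 * (m + 1) - 1 = h := by omega
  have key := full_case (m + 1) hk
  rw [hh] at key
  obtain ⟨C, hC, hmain⟩ := key
  refine ⟨C, hC, ?_⟩
  intro ε hε hε2
  obtain ⟨X₀, hX₀, hmain2⟩ := hmain ε hε hε2
  refine ⟨X₀, hX₀, ?_⟩
  intro A hA X hX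
  obtain ⟨y, hy1, hy2, hy3⟩ := hmain2 A hA X hX
  refine ⟨y, hy1, hy2, ?_⟩
  rw [ncard_eq]
  exact hy3

end Pool.Agent.Results.MP_d7d65f_nt.LocalThinness
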